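import Pool.Agent.H356Z.Mink.Two

set_option autoImplicit false
set_option linter.unusedSectionVars false

open scoped RealInnerProductSpace

namespace Pool.Agent.H356Z.Mink

inductive Fm : Type
  | atom : ℕ → Fm
  | neg : Fm → Fm
  | and : Fm → Fm → Fm
  | F : Fm → Fm
  | P : Fm → Fm

def sem {W : Type*} (r : W → W → Prop) : Fm → (ℕ → Set W) → Set W
  | .atom k => fun v => v k
  | .neg φ => fun v => (sem r φ v)ᶜ
  | .and φ ψ => fun v => sem r φ v ∩ sem r ψ v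
  | .F φ => fun v => {x | ∃ y ∈ sem r φ v, r x y}
  | .P φ => fun v => {x | ∃ y ∈ sem r φ v, r y x}

theorem sem_comap {W W' : Type*} {r : W → W → Prop} {r' : W' → W' → Prop} (e : W ≃ W')
    (he : ∀ a b, r' (e a) (e b) ↔ r a b) (v : ℕ → Set W') (φ : Fm) :
    sem r φ (fun k => e ⁻¹' v k) = e ⁻¹' sem r' φ v := by
  induction φ with
  | atom k => rfl
  | neg φ ih => simp only [sem, ih, Set.preimage_compl]
  | and φ ψ ih1 ih2 => simp only [sem, ih1, ih2, Set.preimage_inter]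
  | F φ ih =>
    ext x
    simp only [sem, ih, Set.mem_setOf_eq, Set.mem_preimage, e.surjective.exists, he]
  | P φ ih =>
    ext x
    simp only [sem, ih, Set.mem_setOf_eq, Set.mem_preimage, e.surjective.exists, he]

def Sat {W : Type*} (r : W → W → Prop) (φ : Fm) : Prop := ∃ v x, x ∈ sem r φ v

theorem Sat.comap {W W' : Type*} {r : W → W → Prop} {r' : W' → W' → Prop} (e : W ≃ W')
    (he : ∀ a b, r' (e a) (e b) ↔ r a b) {φ : Fm} (h : Sat r' φ) : Sat r φ := by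
  obtain ⟨v, x, hx⟩ := h
  refine ⟨fun k => e ⁻¹' v k, e.symm x, ?_⟩
  rw [sem_comap e he]
  simpa using hx

theorem sat_iff {W W' : Type*} {r : W → W → Prop} {r' : W' → W' → Prop} (e : W ≃ W')
    (he : ∀ a b, r' (e a) (e b) ↔ r a b) (φ : Fm) : Sat r φ ↔ Sat r' φ :=
  ⟨Sat.comap e.symm (fun a b => by rw [← he]; simp), Sat.comap e he⟩

namespace Fm
def or (φ ψ : Fm) : Fm := .neg (.and (.neg φ) (.neg ψ))
def imp (φ ψ : Fm) : Fm := .neg (.and φ (.neg ψ))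
def top : Fm := .neg (.and (.atom 0) (.neg (.atom 0)))
def all : List Fm → Fm
  | [] => top
  | φ :: l => .and φ (all l)
noncomputable def big {ι : Type} [Fintype ι] (f : ι → Fm) : Fm := all (Finset.univ.toList.map f)
noncomputable def bigOr {ι : Type} [Fintype ι] (f : ι → Fm) : Fm := .neg (big fun i => .neg (f i))
def cond (p : Prop) [Decidable p] (φ : Fm) : Fm := if p then φ else top
def ex (φ : Fm) : Fm := .F (.P φ)
def un (φ : Fm) : Fm := .neg (ex (.neg φ))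
end Fm

section sem
variable {W : Type*} (r : W → W → Prop) (v : ℕ → Set W) (x : W)

theorem mem_neg (φ : Fm) : x ∈ sem r (.neg φ) v ↔ x ∉ sem r φ v := Iff.rfl
theorem mem_and (φ ψ : Fm) : x ∈ sem r (.and φ ψ) v ↔ x ∈ sem r φ v ∧ x ∈ sem r ψ v := Iff.rfl
theorem mem_or (φ ψ : Fm) : x ∈ sem r (φ.or ψ) v ↔ x ∈ sem r φ v ∨ x ∈ sem r ψ v := by
  simp only [Fm.or, mem_neg, mem_and]; tauto
theorem mem_imp (φ ψ : Fm) : x ∈ sem r (φ.imp ψ) v ↔ (x ∈ sem r φ v → x ∈ sem r ψ v) := by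
  simp only [Fm.imp, mem_neg, mem_and]; tauto
theorem mem_top : x ∈ sem r .top v := by
  simp only [Fm.top, mem_neg, mem_and]; tauto
theorem mem_all (l : List Fm) : x ∈ sem r (.all l) v ↔ ∀ φ ∈ l, x ∈ sem r φ v := by
  induction l with
  | nil => simp [Fm.all, mem_top]
  | cons φ l ih => simp [Fm.all, mem_and, ih]
theorem mem_big {ι : Type} [Fintype ι] (f : ι → Fm) :
    x ∈ sem r (.big f) v ↔ ∀ i, x ∈ sem r (f i) v := by
  simp [Fm.big, mem_all]
theorem mem_bigOr {ι : Type} [Fintype ι] (f : ι → Fm) :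
    x ∈ sem r (.bigOr f) v ↔ ∃ i, x ∈ sem r (f i) v := by
  simp [Fm.bigOr, mem_neg, mem_big]
theorem mem_cond (p : Prop) [Decidable p] (φ : Fm) :
    x ∈ sem r (.cond p φ) v ↔ (p → x ∈ sem r φ v) := by
  unfold Fm.cond
  split_ifs with h <;> simp [h, mem_top]
theorem mem_ex (hdir : ∀ a b, ∃ y, r a y ∧ r b y) (φ : Fm) :
    x ∈ sem r φ.ex v ↔ ∃ z, z ∈ sem r φ v := by
  constructor
  · rintro ⟨y, ⟨z, hz, -⟩, -⟩
    exact ⟨z, hz⟩
  · rintro ⟨z, hz⟩
    obtain ⟨y, h1, h2⟩ := hdir x z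
    exact ⟨y, ⟨z, hz, h2⟩, h1⟩
theorem mem_un (hdir : ∀ a b, ∃ y, r a y ∧ r b y) (φ : Fm) :
    x ∈ sem r φ.un v ↔ ∀ z, z ∈ sem r φ v := by
  simp [Fm.un, mem_neg, mem_ex r v x hdir]

end sem

noncomputable def iiF (c : Fin 3 → Fm) (P : Fm → Fm) : Fm :=
  .bigOr fun i => .bigOr fun j => .and (.cond (i = j) (.neg .top)) (.and (P (c i)) (P (c j)))

noncomputable def futF (p : Fm) (c : Fin 3 → Fm) (F P : Fm → Fm) : Fm :=
  .all [p.imp (.neg (P p)),
    p.imp (.big fun i => F (c i)),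
    .big fun i => (c i).imp (P p),
    .big fun i => .big fun j => .cond (i ≠ j) ((c i).imp (.neg (c j))),
    .big fun i => .big fun j => .cond (i ≠ j) ((c i).imp (.neg (P (c j)))),
    (P p).imp ((Fm.bigOr c).or (iiF c P)),
    .big fun i => (c i).imp (.bigOr fun j => F (c j)),
    (iiF c P).imp (P (iiF c P)),
    (Fm.neg (p.or (P p))).imp (.bigOr fun i => F (c i))]

theorem fut_iff {W : Type*} (r r' : W → W → Prop) (v : ℕ → Set W) (p : Fm) (c : Fin 3 → Fm)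
    (F P : Fm → Fm) (hF : ∀ φ z, z ∈ sem r (F φ) v ↔ ∃ y ∈ sem r φ v, r' z y)
    (hP : ∀ φ z, z ∈ sem r (P φ) v ↔ ∃ y ∈ sem r φ v, r' y z) :
    (∀ z, z ∈ sem r (futF p c F P) v) ↔ Fut r' (sem r p v) (fun i => sem r (c i) v) := by
  have hII : ∀ z, z ∈ sem r (iiF c P) v ↔ II r' (fun i => sem r (c i) v) z := by
    intro z
    simp only [iiF, II, mem_bigOr, mem_and, mem_cond, mem_neg, mem_top, hP, not_true_eq_false,
      imp_false, ne_eq]
  simp only [futF, mem_all, List.mem_cons, List.not_mem_nil, or_false, forall_eq_or_imp,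
    forall_eq, mem_imp, mem_neg, mem_big, mem_bigOr, mem_cond, mem_or, hF, hP, hII]
  constructor
  · intro h
    refine ⟨?_, ?_, ?_, ?_, ?_, ?_, ?_, ?_, ?_⟩
    · intro y hy x hx hxy
      exact (h y).1 hy ⟨x, hx, hxy⟩
    · intro y hy
      exact (h y).2.1 hy
    · intro i a ha
      exact (h a).2.2.1 i ha
    · intro i j hij a ha
      exact (h a).2.2.2.1 i j hij ha
    · intro i j hij a ha b hb hba
      exact (h a).2.2.2.2.1 i j hij ha ⟨b, hb, hba⟩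
    · intro z
      exact (h z).2.2.2.2.2.1
    · intro i a ha
      exact (h a).2.2.2.2.2.2.1 i ha
    · intro z
      exact (h z).2.2.2.2.2.2.2.1
    · intro z
      exact (h z).2.2.2.2.2.2.2.2
  · intro h z
    refine ⟨?_, h.hc z, fun i => h.hd1 i z, fun i j hij => h.hd2 i j hij z, ?_, h.he z,
      fun i => h.hf i z, h.hg z, h.hh z⟩
    · rintro hz ⟨x, hx, hxz⟩
      exact h.hb z hz x hx hxz
    · rintro i j hij hz ⟨b, hb, hbz⟩
      exact h.hd3 i j hij z hz b hb hbz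

def pA (k : Fin 5) : Fm := .atom (7 * k)
def cA (k : Fin 5) (i : Fin 3) : Fm := .atom (7 * k + 1 + i)
def dA (k : Fin 5) (i : Fin 3) : Fm := .atom (7 * k + 4 + i)
def upF (k : Fin 5) : Fm := (pA k).or (.P (pA k))

noncomputable def Phi : Fm :=
  .and (.big fun k => Fm.un (.and (futF (pA k) (cA k) .F .P) (futF (pA k) (dA k) .P .F)))
    (.big fun S : Fin 5 → Bool => Fm.ex (.big fun k => if S k then upF k else .neg (upF k)))

theorem phi_iff {W : Type*} (r : W → W → Prop) (hdir : ∀ a b, ∃ y, r a y ∧ r b y)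
    (v : ℕ → Set W) (x : W) :
    x ∈ sem r Phi v ↔ (∀ k : Fin 5, Fut r (v (7 * k)) (fun i => v (7 * k + 1 + i)) ∧
      Fut (flip r) (v (7 * k)) (fun i => v (7 * k + 4 + i))) ∧
      ∀ S : Fin 5 → Bool, ∃ z, ∀ k : Fin 5,
        (z ∈ v (7 * k) ∨ ∃ y ∈ v (7 * k), r y z) ↔ S k = true := by
  simp only [Phi, mem_and, mem_big, mem_un r v x hdir, mem_ex r v x hdir, forall_and]
  refine and_congr (and_congr (forall_congr' fun k => ?_) (forall_congr' fun k => ?_))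
    (forall_congr' fun S => exists_congr fun z => forall_congr' fun k => ?_)
  · exact fut_iff r r v _ _ _ _ (fun _ _ => Iff.rfl) (fun _ _ => Iff.rfl)
  · exact fut_iff r (flip r) v _ _ _ _ (fun _ _ => Iff.rfl) (fun _ _ => Iff.rfl)
  · have : z ∈ sem r (upF k) v ↔ (z ∈ v (7 * k) ∨ ∃ y ∈ v (7 * k), r y z) := by
      unfold upF; rw [mem_or]; rfl
    cases S k
    · simp only [Bool.false_eq_true, if_false, mem_neg, this, iff_false]
    · simp only [if_true, this, iff_true]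

theorem lt_directed {E : Type*} [NormedAddCommGroup E] [InnerProductSpace ℝ E] (a b : ℝ × E) :
    ∃ y, lt a y ∧ lt b y := by
  refine ⟨(|a.1| + |b.1| + ‖a.2‖ + ‖b.2‖ + 1, 0), tl.lt ?_, tl.lt ?_⟩
  · unfold tl
    simp only [zero_sub, norm_neg]
    have := le_abs_self a.1
    have := abs_nonneg b.1
    have := norm_nonneg b.2
    linarith
  · unfold tl
    simp only [zero_sub, norm_neg]
    have := le_abs_self b.1
    have := abs_nonneg a.1
    have := norm_nonneg a.2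
    linarith

theorem not_sat_two : ¬ Sat (lt (E := E2)) Phi := by
  rintro ⟨v, x, hx⟩
  rw [phi_iff _ lt_directed] at hx
  obtain ⟨h1, h2⟩ := hx
  have hne : ∀ k : Fin 5, ∃ a, a ∈ v (7 * k) := by
    intro k
    obtain ⟨z, hz⟩ := h2 (fun _ => true)
    rcases (hz k).2 rfl with h | ⟨y, hy, -⟩
    · exact ⟨z, h⟩
    · exact ⟨y, hy⟩
  choose a ha using hne
  apply not_shatter a
  intro S
  obtain ⟨z, hz⟩ := h2 S
  refine ⟨z, fun k => ?_⟩
  rw [← hz k, le_iff_eq_or_lt]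
  have hs := subsingleton_of_fut (h1 k).1 (h1 k).2
  constructor
  · rintro (h | h)
    · exact Or.inl (h ▸ ha k)
    · exact Or.inr ⟨_, ha k, h⟩
  · rintro (h | ⟨y, hy, h⟩)
    · exact Or.inl (hs (ha k) h)
    · exact Or.inr (hs hy (ha k) ▸ h)

theorem le_iff_sq {n : ℕ} (a b : ℝ × EuclideanSpace ℝ (Fin n)) :
    le a b ↔ a.1 ≤ b.1 ∧ ∑ i, (b.2 i - a.2 i) ^ 2 ≤ (b.1 - a.1) ^ 2 := by
  have h := EuclideanSpace.real_norm_sq_eq (b.2 - a.2)
  simp only [PiLp.sub_apply] at h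
  rw [← h]
  unfold le
  have h0 := norm_nonneg (b.2 - a.2)
  constructor
  · intro h1
    exact ⟨by linarith, by nlinarith⟩
  · rintro ⟨h1, h2⟩
    exact (abs_le_of_sq_le_sq' h2 (by linarith)).2

abbrev E3 := EuclideanSpace ℝ (Fin 3)

def aZ : Fin 5 → ℤ × ℤ × ℤ × ℤ :=
  ![(2, 0, 0, 0), (0, 2, 2, 2), (0, 2, -2, -2), (0, -2, 2, -2), (0, -2, -2, 2)]

def zL : List (ℤ × ℤ × ℤ × ℤ) :=
  [(0, 0, 0, 0), (2, 0, 0, 0), (3, -1, 0, 0), (3, 0, -1, 0), (3, 0, 0, -1), (3, 0, 0, 1),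
   (3, 0, 1, 0), (3, 1, 0, 0), (4, 0, 0, 0), (2, -1, -1, 1), (2, -1, 1, -1), (2, 1, -1, -1),
   (2, 1, 1, 1), (3, -2, 0, 0), (3, 0, -2, 0), (3, 0, 0, -2), (3, 0, 0, 2), (3, 0, 2, 0),
   (3, 2, 0, 0), (4, -1, -1, 0), (4, -1, 0, 1), (4, 0, -1, 1), (4, 0, 1, -1), (4, -1, -1, 1),
   (4, -1, 1, -1), (4, 1, -1, -1), (4, 1, 1, 1), (4, -2, -2, -2), (4, -2, 2, 2), (4, 2, -2, 2),
   (4, 2, 2, -2), (12, -6, -6, 6)]

def leZ (a b : ℤ × ℤ × ℤ × ℤ) : Bool :=
  decide (a.1 ≤ b.1) && decide ((b.2.1 - a.2.1) ^ 2 + (b.2.2.1 - a.2.2.1) ^ 2 +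
    (b.2.2.2 - a.2.2.2) ^ 2 ≤ (b.1 - a.1) ^ 2)

theorem shatterZ : ∀ s0 s1 s2 s3 s4 : Bool, ∃ z ∈ zL, leZ (aZ 0) z = s0 ∧ leZ (aZ 1) z = s1 ∧
    leZ (aZ 2) z = s2 ∧ leZ (aZ 3) z = s3 ∧ leZ (aZ 4) z = s4 := by
  decide +kernel

noncomputable def emb (a : ℤ × ℤ × ℤ × ℤ) : ℝ × E3 :=
  (a.1, WithLp.toLp 2 ![(a.2.1 : ℝ), (a.2.2.1 : ℝ), (a.2.2.2 : ℝ)])

theorem le_emb (a b : ℤ × ℤ × ℤ × ℤ) : le (emb a) (emb b) ↔ leZ a b = true := by
  rw [le_iff_sq]
  simp only [emb, leZ, Fin.sum_univ_three, Bool.and_eq_true, decide_eq_true_eq]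
  simp only [Matrix.cons_val_zero, Matrix.cons_val_one, Matrix.cons_val]
  constructor
  · rintro ⟨h1, h2⟩
    exact ⟨by exact_mod_cast h1, by exact_mod_cast h2⟩
  · rintro ⟨h1, h2⟩
    exact ⟨by exact_mod_cast h1, by exact_mod_cast h2⟩

noncomputable def col3 (w : E3) : Fin 3 := if 0 < w 0 then 0 else if w 0 < 0 then 1 else 2

theorem col3_smul (t : ℝ) (u : E3) (ht : 0 < t) : col3 (t • u) = col3 u := by
  unfold col3
  simp only [PiLp.smul_apply, smul_eq_mul, mul_pos_iff_of_pos_left ht, mul_neg_iff, ht,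
    true_and, not_lt.2 ht.le, false_and, or_false]

theorem col3_surj (i : Fin 3) : ∃ u : E3, ‖u‖ = 1 ∧ col3 u = i := by
  fin_cases i
  · exact ⟨EuclideanSpace.single 0 1, by simp, by simp [col3]⟩
  · exact ⟨EuclideanSpace.single 0 (-1), by simp, by simp [col3]⟩
  · exact ⟨EuclideanSpace.single 1 1, by simp, by simp [col3]⟩

theorem sat_three : Sat (lt (E := E3)) Phi := by
  have h := fun k => fut_single col3 col3_smul col3_surj (emb (aZ k))
  choose c hc using fun k => (h k).1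
  choose d hd using fun k => (h k).2
  let v : ℕ → Set (ℝ × E3) := fun n =>
    if hn : n / 7 < 5 then
      if n % 7 = 0 then {emb (aZ ⟨n / 7, hn⟩)}
      else if h1 : n % 7 - 1 < 3 then c ⟨n / 7, hn⟩ ⟨n % 7 - 1, h1⟩
      else d ⟨n / 7, hn⟩ ⟨n % 7 - 4, by omega⟩
    else ∅
  have v0 : ∀ k : Fin 5, v (7 * k) = {emb (aZ k)} := by
    intro k; fin_cases k <;> rfl
  have v1 : ∀ (k : Fin 5) (i : Fin 3), v (7 * k + 1 + i) = c k i := by
    intro k i; fin_cases k <;> fin_cases i <;> rfl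
  have v2 : ∀ (k : Fin 5) (i : Fin 3), v (7 * k + 4 + i) = d k i := by
    intro k i; fin_cases k <;> fin_cases i <;> rfl
  refine ⟨v, 0, ?_⟩
  rw [phi_iff _ lt_directed]
  simp only [v0, v1, v2]
  refine ⟨fun k => ⟨hc k, hd k⟩, fun S => ?_⟩
  obtain ⟨z, -, hz⟩ := shatterZ (S 0) (S 1) (S 2) (S 3) (S 4)
  refine ⟨emb z, fun k => ?_⟩
  have : leZ (aZ k) z = S k := by
    fin_cases k
    · exact hz.1
    · exact hz.2.1
    · exact hz.2.2.1
    · exact hz.2.2.2.1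
    · exact hz.2.2.2.2
  rw [← this, ← le_emb, le_iff_eq_or_lt]
  simp [eq_comm]

def rel (n : ℕ) (x y : Fin (n + 1) → ℝ) : Prop :=
  x ≠ y ∧ x 0 ≤ y 0 ∧ ∑ i : Fin n, (y i.succ - x i.succ) ^ 2 ≤ (y 0 - x 0) ^ 2

noncomputable def split (n : ℕ) : (Fin (n + 1) → ℝ) ≃ ℝ × EuclideanSpace ℝ (Fin n) where
  toFun x := (x 0, WithLp.toLp 2 (fun i => x i.succ))
  invFun p := Fin.cons p.1 (fun i => p.2 i)
  left_inv x := by
    ext i
    refine Fin.cases ?_ (fun j => ?_) i <;> simp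
  right_inv p := by
    ext <;> simp

theorem sat_rel (n : ℕ) (φ : Fm) :
    Sat (rel n) φ ↔ Sat (lt (E := EuclideanSpace ℝ (Fin n))) φ := by
  refine sat_iff (split n) (fun a b => ?_) φ
  unfold lt rel
  rw [le_iff_sq, (split n).injective.ne_iff]
  rfl

theorem main : ¬ (Sat (rel 2) Phi ↔ Sat (rel 3) Phi) := by
  rw [sat_rel, sat_rel]
  exact fun h => not_sat_two (h.2 sat_three)

end Pool.Agent.H356Z.Mink
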