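import Mathlib

set_option autoImplicit false
set_option linter.unusedSectionVars false

open scoped RealInnerProductSpace

namespace Pool.Agent.H356Z.Mink

/-- sees two different colours in the past -/
def II {W : Type*} (r : W → W → Prop) (c : Fin 3 → Set W) (z : W) : Prop :=
  ∃ i j, i ≠ j ∧ (∃ a ∈ c i, r a z) ∧ (∃ b ∈ c j, r b z)

/-- the conditions describing a three-coloured boundary of the future of `P` -/
structure Fut {W : Type*} (r : W → W → Prop) (P : Set W) (c : Fin 3 → Set W) : Prop where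
  hb : ∀ y ∈ P, ∀ x ∈ P, ¬ r x y
  hc : ∀ y ∈ P, ∀ i, ∃ a ∈ c i, r y a
  hd1 : ∀ i, ∀ a ∈ c i, ∃ y ∈ P, r y a
  hd2 : ∀ i j, i ≠ j → ∀ a ∈ c i, a ∉ c j
  hd3 : ∀ i j, i ≠ j → ∀ a ∈ c i, ∀ b ∈ c j, ¬ r b a
  he : ∀ z, (∃ y ∈ P, r y z) → (∃ i, z ∈ c i) ∨ II r c z
  hf : ∀ i, ∀ a ∈ c i, ∃ j, ∃ b ∈ c j, r a b
  hg : ∀ z, II r c z → ∃ w, II r c w ∧ r w z
  hh : ∀ z, ¬ (z ∈ P ∨ ∃ y ∈ P, r y z) → ∃ i, ∃ b ∈ c i, r z b

theorem II_comap {W W' : Type*} {r : W → W → Prop} {r' : W' → W' → Prop} (e : W ≃ W')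
    (he : ∀ a b, r' (e a) (e b) ↔ r a b) (c : Fin 3 → Set W') (z : W) :
    II r (fun i => e ⁻¹' c i) z ↔ II r' c (e z) := by
  unfold II
  simp only [e.surjective.exists, he, Set.mem_preimage]

theorem Fut.comap {W W' : Type*} {r : W → W → Prop} {r' : W' → W' → Prop} (e : W ≃ W')
    (he : ∀ a b, r' (e a) (e b) ↔ r a b) {P : Set W'} {c : Fin 3 → Set W'} (h : Fut r' P c) :
    Fut r (e ⁻¹' P) (fun i => e ⁻¹' c i) := by
  obtain ⟨hb, hc, hd1, hd2, hd3, he', hf, hg, hh⟩ := h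
  simp only [e.surjective.exists, e.surjective.forall, he] at hb hc hd1 hd2 hd3 he' hf hg hh
  refine ⟨hb, hc, hd1, hd2, hd3, ?_, hf, ?_, hh⟩
  · intro z hz
    rw [II_comap e he]
    exact he' z hz
  · intro z hz
    rw [II_comap e he] at hz
    obtain ⟨w, hw, hw'⟩ := hg z hz
    exact ⟨w, (II_comap e he c w).2 hw, hw'⟩

variable {E : Type*} [NormedAddCommGroup E] [InnerProductSpace ℝ E]

def le (a b : ℝ × E) : Prop := ‖b.2 - a.2‖ ≤ b.1 - a.1
def lt (a b : ℝ × E) : Prop := a ≠ b ∧ le a b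
def tl (a b : ℝ × E) : Prop := ‖b.2 - a.2‖ < b.1 - a.1
def ray (y : ℝ × E) (u : E) (t : ℝ) : ℝ × E := (y.1 + t, y.2 + t • u)

theorem le_rfl' (a : ℝ × E) : le a a := by simp [le]

theorem le.trans {a b c : ℝ × E} (h1 : le a b) (h2 : le b c) : le a c := by
  unfold le at *
  have := norm_add_le (c.2 - b.2) (b.2 - a.2)
  rw [sub_add_sub_cancel] at this
  linarith

theorem le.trans_tl {a b c : ℝ × E} (h1 : le a b) (h2 : tl b c) : tl a c := by
  unfold le tl at *
  have := norm_add_le (c.2 - b.2) (b.2 - a.2)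
  rw [sub_add_sub_cancel] at this
  linarith

theorem tl.le' {a b c : ℝ × E} (h1 : tl a b) (h2 : le b c) : tl a c := by
  unfold le tl at *
  have := norm_add_le (c.2 - b.2) (b.2 - a.2)
  rw [sub_add_sub_cancel] at this
  linarith

theorem lt.time {a b : ℝ × E} (h : lt a b) : a.1 < b.1 := by
  obtain ⟨hne, h⟩ := h
  unfold le at h
  by_contra hc
  have h0 := norm_nonneg (b.2 - a.2)
  have h1 : ‖b.2 - a.2‖ = 0 := by linarith
  rw [norm_eq_zero, sub_eq_zero] at h1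
  apply hne
  ext
  · linarith
  · exact h1.symm

theorem lt_of_time {a b : ℝ × E} (h : le a b) (h' : a.1 < b.1) : lt a b :=
  ⟨fun he => by rw [he] at h'; exact lt_irrefl _ h', h⟩

theorem le.time {a b : ℝ × E} (h : le a b) : a.1 ≤ b.1 := by
  unfold le at h
  have h0 := norm_nonneg (b.2 - a.2)
  linarith

theorem lt.trans {a b c : ℝ × E} (h1 : lt a b) (h2 : lt b c) : lt a c :=
  lt_of_time (h1.2.trans h2.2) (h1.time.trans h2.time)

theorem tl.lt {a b : ℝ × E} (h : tl a b) : lt a b := by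
  have h0 := norm_nonneg (b.2 - a.2)
  unfold tl at h
  exact lt_of_time h.le (by linarith)

theorem le_iff_eq_or_lt {a b : ℝ × E} : le a b ↔ a = b ∨ lt a b := by
  constructor
  · intro h
    by_cases he : a = b
    · exact Or.inl he
    · exact Or.inr ⟨he, h⟩
  · rintro (rfl | h)
    · exact le_rfl' _
    · exact h.2

theorem ray_le_ray (y : ℝ × E) {u : E} (hu : ‖u‖ = 1) {s t : ℝ} (h : s ≤ t) :
    le (ray y u s) (ray y u t) := by
  unfold le ray
  simp only
  have : y.2 + t • u - (y.2 + s • u) = (t - s) • u := by rw [sub_smul]; abel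
  rw [this, norm_smul, hu, Real.norm_eq_abs, abs_of_nonneg (by linarith)]
  linarith

theorem ray_lt_ray (y : ℝ × E) {u : E} (hu : ‖u‖ = 1) {s t : ℝ} (h : s < t) :
    lt (ray y u s) (ray y u t) :=
  lt_of_time (ray_le_ray y hu h.le) (by simp [ray, h])

theorem ray_zero (y : ℝ × E) (u : E) : ray y u 0 = y := by simp [ray]

theorem lt_ray (y : ℝ × E) {u : E} (hu : ‖u‖ = 1) {t : ℝ} (h : 0 < t) : lt y (ray y u t) := by
  have := ray_lt_ray y hu h
  rwa [ray_zero] at this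

theorem eq_of_inner {u w : E} (hu : ‖u‖ = 1) {s : ℝ} (h1 : ‖w‖ ≤ s) (h2 : s ≤ ⟪u, w⟫) :
    w = s • u := by
  have h0 := norm_nonneg w
  have h3 : ‖w - s • u‖ ^ 2 ≤ 0 := by
    rw [norm_sub_sq_real, inner_smul_right, norm_smul, hu, real_inner_comm, Real.norm_eq_abs,
      mul_one, sq_abs]
    nlinarith
  have h4 : ‖w - s • u‖ = 0 := by nlinarith [norm_nonneg (w - s • u)]
  rwa [norm_eq_zero, sub_eq_zero] at h4

theorem inner_le_norm {u : E} (hu : ‖u‖ = 1) (w : E) : ⟪u, w⟫ ≤ ‖w‖ := by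
  have := real_inner_le_norm u w
  rwa [hu, one_mul] at this

/-- L1 -/
theorem exists_ray {y b : ℝ × E} (h : lt y b) (hn : ¬ tl y b) :
    ∃ u : E, ‖u‖ = 1 ∧ b = ray y u (b.1 - y.1) := by
  have ht := h.time
  have h1 : ‖b.2 - y.2‖ = b.1 - y.1 := le_antisymm h.2 (not_lt.1 hn)
  refine ⟨(b.1 - y.1)⁻¹ • (b.2 - y.2), ?_, ?_⟩
  · rw [norm_smul, h1, Real.norm_eq_abs, abs_of_pos (inv_pos.2 (by linarith))]
    exact inv_mul_cancel₀ (by linarith)
  · unfold ray
    ext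
    · simp
    · simp only
      rw [smul_smul, mul_inv_cancel₀ (by linarith), one_smul]
      abel

/-- L2 -/
theorem eq_ray_of_between {y b : ℝ × E} {u : E} (hu : ‖u‖ = 1) {T : ℝ} (h1 : le y b)
    (h2 : le b (ray y u T)) : b = ray y u (b.1 - y.1) := by
  unfold le ray at *
  simp only at h2
  have h3 := inner_le_norm hu (y.2 + T • u - b.2)
  have h4 : ⟪u, y.2 + T • u - b.2⟫ = T - ⟪u, b.2 - y.2⟫ := by
    have : y.2 + T • u - b.2 = T • u - (b.2 - y.2) := by abel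
    rw [this, inner_sub_right, inner_smul_right, real_inner_self_eq_norm_sq, hu]
    ring
  have h5 := eq_of_inner hu h1 (by linarith)
  ext
  · simp
  · simp only
    rw [← h5]; abel

theorem ray_inj {y : ℝ × E} {u v : E} {T : ℝ} (hT : T ≠ 0) (h : ray y u T = ray y v T) : u = v := by
  have := congrArg Prod.snd h
  simp only [ray, add_right_inj] at this
  exact smul_right_injective E hT this

/-- L3 -/
theorem eq_ray_of_beyond {y b : ℝ × E} {u : E} (hu : ‖u‖ = 1) {T : ℝ} (hT : 0 < T)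
    (h1 : le (ray y u T) b) (hn : ¬ tl y b) : b = ray y u (b.1 - y.1) := by
  have hyb : lt y b := lt_of_time ((lt_ray y hu hT).2.trans h1)
    ((lt_ray y hu hT).time.trans_le h1.time)
  obtain ⟨v, hv, hb⟩ := exists_ray hyb hn
  have h2 := eq_ray_of_between hv (lt_ray y hu hT).2 (hb ▸ h1)
  have h3 : (ray y u T).1 - y.1 = T := by simp [ray]
  rw [h3] at h2
  rw [ray_inj hT.ne' h2]
  exact hb

section Fut

variable {P : Set (ℝ × E)} {c : Fin 3 → Set (ℝ × E)}

theorem exists_ne3 (i : Fin 3) : ∃ j : Fin 3, j ≠ i := exists_ne i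

theorem Fut.not_II (h : Fut lt P c) {j : Fin 3} {a e : ℝ × E} (ha : a ∈ c j) (hea : le e a) :
    ¬ II lt c e := by
  rintro ⟨k, l, hkl, ⟨p, hp, hpe⟩, ⟨q, hq, hqe⟩⟩
  have hp' : lt p a := lt_of_time (hpe.2.trans hea) (hpe.time.trans_le hea.time)
  have hq' : lt q a := lt_of_time (hqe.2.trans hea) (hqe.time.trans_le hea.time)
  by_cases hk : j = k
  · exact h.hd3 j l (by rw [hk]; exact hkl) a ha q hq hq'
  · exact h.hd3 j k hk a ha p hp hp'

theorem Fut.between (h : Fut lt P c) {j : Fin 3} {y a e : ℝ × E} (hy : y ∈ P) (ha : a ∈ c j)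
    (hye : lt y e) (hea : lt e a) : e ∈ c j := by
  rcases h.he e ⟨y, hy, hye⟩ with ⟨k, hk⟩ | hI
  · by_cases hjk : j = k
    · rw [hjk]; exact hk
    · exact absurd hea (h.hd3 j k hjk a ha e hk)
  · exact absurd hI (h.not_II ha hea.2)

/-- Step 1 -/
theorem Fut.not_tl (h : Fut lt P c) {i : Fin 3} {y b : ℝ × E} (hy : y ∈ P) (hb : b ∈ c i) :
    ¬ tl y b := by
  intro ht
  obtain ⟨j, hj⟩ := exists_ne3 i
  obtain ⟨a, ha, hya⟩ := h.hc y hy j
  have hT := hya.time
  have hle := hya.2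
  unfold tl at ht
  unfold le at hle
  set g := b.1 - y.1 - ‖b.2 - y.2‖ with hg
  have hg0 : 0 < g := by linarith
  set T := a.1 - y.1 with hTdef
  have hT0 : 0 < T := by linarith
  set ε := min (1 / 2) (g / (4 * T)) with hε
  have hε0 : 0 < ε := lt_min (by norm_num) (by positivity)
  have hε1 : ε ≤ 1 / 2 := min_le_left _ _
  have hε2 : ε * T ≤ g / 4 := by
    have : ε ≤ g / (4 * T) := min_le_right _ _
    calc ε * T ≤ g / (4 * T) * T := by gcongr
      _ = g / 4 := by field_simp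
  set e : ℝ × E := (y.1 + ε * T, y.2 + ε • (a.2 - y.2)) with he
  have hye : lt y e := by
    refine lt_of_time ?_ ?_
    · unfold le
      simp only [he, add_sub_cancel_left, norm_smul, Real.norm_eq_abs, abs_of_pos hε0]
      gcongr
    · simp only [he]; nlinarith
  have hea : lt e a := by
    refine lt_of_time ?_ ?_
    · unfold le
      simp only [he]
      have : a.2 - (y.2 + ε • (a.2 - y.2)) = (1 - ε) • (a.2 - y.2) := by
        rw [sub_smul, one_smul]; abel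
      rw [this, norm_smul, Real.norm_eq_abs, abs_of_pos (by linarith)]
      have : (1 - ε) * ‖a.2 - y.2‖ ≤ (1 - ε) * T := by
        gcongr; linarith
      nlinarith
    · simp only [he]; nlinarith
  have heb : lt e b := by
    apply tl.lt
    unfold tl
    simp only [he]
    have : b.2 - (y.2 + ε • (a.2 - y.2)) = (b.2 - y.2) - ε • (a.2 - y.2) := by abel
    rw [this]
    have h1 := norm_sub_le (b.2 - y.2) (ε • (a.2 - y.2))
    rw [norm_smul, Real.norm_eq_abs, abs_of_pos hε0] at h1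
    have h2 : ε * ‖a.2 - y.2‖ ≤ ε * T := by gcongr
    linarith
  exact h.hd3 i j hj.symm b hb e (h.between hy ha hye hea) heb

/-- Step 2, core -/
theorem Fut.unbounded (h : Fut lt P c) {y : ℝ × E} (hy : y ∈ P) {u : E} (hu : ‖u‖ = 1)
    {T : ℝ} (hT : 0 < T) (hb : ∃ i, ray y u T ∈ c i) (M : ℝ) :
    ∃ t, M < t ∧ ∃ i, ray y u t ∈ c i := by
  by_contra hcon
  push Not at hcon
  set S : Set ℝ := {t | ∃ i, ray y u t ∈ c i} with hS
  have hSne : S.Nonempty := ⟨T, hb⟩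
  have hSb : BddAbove S := ⟨M, fun t ht => by
    by_contra hlt
    obtain ⟨i, hi⟩ := ht
    exact hcon t (not_le.1 hlt) i hi⟩
  set T' := sSup S with hT'
  have hTT' : T ≤ T' := le_csSup hSb hb
  have hT'0 : 0 < T' := by linarith
  set m := ray y u T' with hm
  have hym : lt y m := lt_ray y hu hT'0
  rcases h.he m ⟨y, hy, hym⟩ with ⟨k, hk⟩ | hI
  · obtain ⟨j, b, hb, hmb⟩ := h.hf k m hk
    have h1 := eq_ray_of_beyond hu hT'0 hmb.2 (h.not_tl hy hb)
    have h2 : b.1 - y.1 ≤ T' := le_csSup hSb ⟨j, h1 ▸ hb⟩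
    have h3 := hmb.time
    simp only [hm, ray] at h3
    linarith
  · have hntl : ∀ y' ∈ P, ¬ tl y' m := by
      intro y' hy' ht
      unfold tl at ht
      set g := m.1 - y'.1 - ‖m.2 - y'.2‖ with hg
      have hg0 : 0 < g := by linarith
      obtain ⟨t, ⟨i, hi⟩, ht'⟩ := exists_lt_of_lt_csSup hSne (show T' - g / 4 < T' by linarith)
      have htT : t ≤ T' := le_csSup hSb ⟨i, hi⟩
      apply h.not_tl hy' hi
      unfold tl
      have e1 : (ray y u t).2 - y'.2 = (m.2 - y'.2) - (T' - t) • u := by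
        simp only [hm, ray, sub_smul]; abel
      have e2 : (ray y u t).1 = m.1 - (T' - t) := by simp only [hm, ray]; ring
      rw [e1, e2]
      have h1 := norm_sub_le (m.2 - y'.2) ((T' - t) • u)
      rw [norm_smul, hu, Real.norm_eq_abs, abs_of_nonneg (by linarith)] at h1
      linarith
    obtain ⟨w, ⟨k, l, hkl, ⟨a1, ha1, ha1w⟩, ⟨a2, ha2, ha2w⟩⟩, hwm⟩ := h.hg m hI
    have key : ∀ k, ∀ a ∈ c k, lt a w → ∃ v : E, ‖v‖ = 1 ∧ m = ray w v (m.1 - w.1) ∧
        a = ray m v (a.1 - m.1) := by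
      intro k a ha haw
      obtain ⟨y1, hy1, hy1a⟩ := h.hd1 k a ha
      have hn : ¬ tl a m := fun ht => hntl y1 hy1 (hy1a.2.trans_tl ht)
      obtain ⟨v, hv, hmv⟩ := exists_ray (haw.trans hwm) hn
      have hw := eq_ray_of_between hv haw.2 (hmv ▸ hwm.2)
      have hm2 := congrArg Prod.snd hmv
      have hw2 := congrArg Prod.snd hw
      simp only [ray] at hm2 hw2
      refine ⟨v, hv, ?_, ?_⟩
      · ext
        · simp [ray]
        · simp only [ray]
          rw [hm2, hw2, add_assoc, ← add_smul]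
          congr 2; ring
      · ext
        · simp [ray]
        · simp only [ray]
          rw [hm2, add_assoc, ← add_smul]
          simp
    obtain ⟨v1, hv1, e1, f1⟩ := key k a1 ha1 ha1w
    obtain ⟨v2, hv2, e2, f2⟩ := key l a2 ha2 ha2w
    have hv : v1 = v2 := ray_inj (by have := hwm.time; linarith) (e1.symm.trans e2)
    subst hv
    rcases lt_trichotomy (a1.1 - m.1) (a2.1 - m.1) with hlt | heq | hlt
    · exact h.hd3 l k hkl.symm a2 ha2 a1 ha1 (by rw [f1, f2]; simpa [ray] using ray_lt_ray m hv1 hlt)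
    · refine h.hd2 k l hkl a1 ha1 ?_
      rw [f1, heq, ← f2]; exact ha2
    · exact h.hd3 k l hkl a1 ha1 a2 ha2 (by rw [f1, f2]; simpa [ray] using ray_lt_ray m hv1 hlt)

/-- Step 2 -/
theorem Fut.ray_mem (h : Fut lt P c) {i : Fin 3} {y b : ℝ × E} (hy : y ∈ P) (hb : b ∈ c i)
    (hyb : lt y b) : ∃ u : E, ‖u‖ = 1 ∧ b = ray y u (b.1 - y.1) ∧ ∀ t, 0 < t → ray y u t ∈ c i := by
  obtain ⟨u, hu, hbu⟩ := exists_ray hyb (h.not_tl hy hb)
  have hT : 0 < b.1 - y.1 := by have := hyb.time; linarith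
  refine ⟨u, hu, hbu, fun t ht => ?_⟩
  obtain ⟨t', ht', k, hk⟩ := h.unbounded hy hu hT ⟨i, hbu ▸ hb⟩ (max t (b.1 - y.1))
  have h1 : ray y u t ∈ c k := h.between hy hk (lt_ray y hu ht)
    (ray_lt_ray y hu ((le_max_left _ _).trans_lt ht'))
  have h2 : b ∈ c k := h.between hy hk hyb
    (by rw [hbu]; simpa [ray] using ray_lt_ray y hu ((le_max_right _ _).trans_lt ht'))
  by_cases hik : i = k
  · rw [hik]; exact h1
  · exact absurd h2 (h.hd2 i k hik b hb)

/-- Step 3 -/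
theorem Fut.support (h : Fut lt P c) {i : Fin 3} {y x : ℝ × E} (hx : x ∈ P) {u : E}
    (hu : ‖u‖ = 1) (hr : ∀ t, 0 < t → ray y u t ∈ c i) :
    y.1 - ⟪u, y.2⟫ ≤ x.1 - ⟪u, x.2⟫ := by
  by_contra hcon
  push Not at hcon
  set δ := y.1 - x.1 with hδ
  set w := y.2 - x.2 with hw
  have hg : 0 < δ - ⟪u, w⟫ := by
    rw [hw, inner_sub_right]; linarith
  set g := δ - ⟪u, w⟫ with hgdef
  set t := |δ| + 1 + ‖w‖ ^ 2 / (2 * g) with ht
  have hq : 0 ≤ ‖w‖ ^ 2 / (2 * g) := by positivity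
  have ht0 : 0 < t := by positivity
  apply h.not_tl hx (hr t ht0)
  unfold tl
  have e1 : (ray y u t).2 - x.2 = w + t • u := by simp only [ray, hw]; abel
  have e2 : (ray y u t).1 - x.1 = δ + t := by simp only [ray, hδ]; ring
  rw [e1, e2]
  have hpos : 0 < δ + t := by have := neg_abs_le δ; linarith
  apply lt_of_pow_lt_pow_left₀ 2 hpos.le
  rw [norm_add_sq_real, inner_smul_right, norm_smul, hu, real_inner_comm, Real.norm_eq_abs,
    mul_one, sq_abs]
  have h1 : 2 * g * (‖w‖ ^ 2 / (2 * g)) = ‖w‖ ^ 2 := by field_simp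
  have h2 : ‖w‖ ^ 2 < 2 * g * t := by
    rw [ht]
    have := abs_nonneg δ
    nlinarith
  nlinarith [sq_nonneg δ]

/-- Step 4 -/
theorem Fut.up_iff (h : Fut lt P c) (z : ℝ × E) :
    (∃ y ∈ P, le y z) ↔ ∀ y ∈ P, ∀ (i : Fin 3) (u : E), ‖u‖ = 1 → (∀ t, 0 < t → ray y u t ∈ c i) →
      y.1 - ⟪u, y.2⟫ ≤ z.1 - ⟪u, z.2⟫ := by
  constructor
  · rintro ⟨x, hx, hxz⟩ y _ i u hu hr
    have h1 := h.support hx hu hr
    have h2 := inner_le_norm hu (z.2 - x.2)
    rw [inner_sub_right] at h2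
    unfold le at hxz
    linarith
  · intro hz
    by_contra hcon
    obtain ⟨i, b, hb, hzb⟩ := h.hh z (by
      rintro (h1 | ⟨y, hy, h1⟩)
      · exact hcon ⟨z, h1, le_rfl' z⟩
      · exact hcon ⟨y, hy, h1.2⟩)
    obtain ⟨y, hy, hyb⟩ := h.hd1 i b hb
    obtain ⟨u, hu, hbu, hr⟩ := h.ray_mem hy hb hyb
    have h1 := hz y hy i u hu hr
    have hb2 := congrArg Prod.snd hbu
    simp only [ray] at hb2
    have h2 : ⟪u, b.2⟫ = ⟪u, y.2⟫ + (b.1 - y.1) := by
      rw [hb2, inner_add_right, inner_smul_right, real_inner_self_eq_norm_sq, hu]; ring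
    have h3 := eq_of_inner hu hzb.2 (by rw [inner_sub_right]; linarith)
    have hz2 : z.2 = y.2 + (z.1 - y.1) • u := by
      have : z.2 = b.2 - (b.1 - z.1) • u := by rw [← h3]; abel
      rw [this, hb2, add_sub_assoc, ← sub_smul]
      congr 2; ring
    have hneg : z.1 - y.1 < 0 := by
      by_contra hn
      apply hcon
      refine ⟨y, hy, ?_⟩
      unfold le
      rw [hz2, add_sub_cancel_left, norm_smul, hu, Real.norm_eq_abs, abs_of_nonneg (not_lt.1 hn)]
      simp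
    obtain ⟨j, hj⟩ := exists_ne3 i
    obtain ⟨a, ha, hya⟩ := h.hc y hy j
    obtain ⟨v, hv, -, hrv⟩ := h.ray_mem hy ha hya
    have h4 := hz y hy j v hv hrv
    rw [hz2, inner_add_right, inner_smul_right] at h4
    have h5 : 1 ≤ ⟪v, u⟫ := by nlinarith
    have h6 := eq_of_inner hv hu.le h5
    rw [one_smul] at h6
    exact h.hd2 j i hj _ (hrv 1 one_pos) (h6 ▸ hr 1 one_pos)

theorem Fut.mid_up (h : Fut lt P c) {x y : ℝ × E} (hx : x ∈ P) (hy : y ∈ P) :
    ∃ a ∈ P, le a ((1 / 2 : ℝ) • (x + y)) := by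
  rw [h.up_iff]
  intro z _ i u hu hr
  have h1 := h.support hx hu hr
  have h2 := h.support hy hu hr
  simp only [Prod.smul_fst, Prod.fst_add, Prod.smul_snd, Prod.snd_add, inner_smul_right,
    inner_add_right, smul_eq_mul]
  linarith

end Fut

theorem le_neg (a b : ℝ × E) : le (-a) (-b) ↔ le b a := by
  unfold le
  simp only [Prod.snd_neg, Prod.fst_neg]
  have : -b.2 - -a.2 = a.2 - b.2 := by abel
  rw [this]
  constructor <;> intro h <;> linarith

theorem lt_neg (a b : ℝ × E) : lt (-a) (-b) ↔ lt b a := by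
  unfold lt
  rw [le_neg]
  simp only [ne_eq, neg_inj]
  constructor <;> rintro ⟨h1, h2⟩ <;> exact ⟨fun h => h1 h.symm, h2⟩

theorem mid_mem {P : Set (ℝ × E)} {c c' : Fin 3 → Set (ℝ × E)} (h : Fut lt P c)
    (h' : Fut (flip lt) P c') {x y : ℝ × E} (hx : x ∈ P) (hy : y ∈ P) :
    (1 / 2 : ℝ) • (x + y) ∈ P := by
  obtain ⟨a, ha, ham⟩ := h.mid_up hx hy
  have h2 : Fut lt ((Equiv.neg (ℝ × E)) ⁻¹' P) (fun i => (Equiv.neg (ℝ × E)) ⁻¹' c' i) :=
    Fut.comap (Equiv.neg (ℝ × E)) (fun a b => by simp only [flip, Equiv.neg_apply, lt_neg]) h'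
  obtain ⟨b, hb, hbm⟩ := h2.mid_up (x := -x) (y := -y) (by simpa using hx) (by simpa using hy)
  have hb' : -b ∈ P := by simpa using hb
  have hmb : le ((1 / 2 : ℝ) • (x + y)) (-b) := by
    rw [← le_neg, neg_neg]
    have : -((1 / 2 : ℝ) • (x + y)) = (1 / 2 : ℝ) • (-x + -y) := by
      rw [← smul_neg, neg_add]
    rw [this]; exact hbm
  have hab : a = -b := by
    by_contra hne
    exact h.hb _ hb' _ ha ⟨hne, ham.trans hmb⟩
  have : a = (1 / 2 : ℝ) • (x + y) := by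
    by_contra hne
    have h3 : lt a ((1 / 2 : ℝ) • (x + y)) := ⟨hne, ham⟩
    have h4 := h3.time.trans_le hmb.time
    rw [← hab] at h4
    exact lt_irrefl _ h4
  rw [← this]; exact ha

end Pool.Agent.H356Z.Mink
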