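import Pool.Agent.H356Z.Mink.Geo

set_option autoImplicit false
set_option linter.unusedSectionVars false

open scoped RealInnerProductSpace

namespace Pool.Agent.H356Z.Mink

abbrev E2 := EuclideanSpace ℝ (Fin 2)

theorem three_units {u1 u2 u3 w : E2} (h1 : ‖u1‖ = 1) (h2 : ‖u2‖ = 1) (h3 : ‖u3‖ = 1)
    (hw : w ≠ 0) (e12 : ⟪u1, w⟫ = ⟪u2, w⟫) (e13 : ⟪u1, w⟫ = ⟪u3, w⟫) :
    u1 = u2 ∨ u1 = u3 ∨ u2 = u3 := by
  have n : ∀ u : E2, ‖u‖ = 1 → u 0 ^ 2 + u 1 ^ 2 = 1 := by
    intro u hu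
    have := EuclideanSpace.real_norm_sq_eq u
    rw [hu, Fin.sum_univ_two] at this
    linarith
  have ip : ∀ u : E2, ⟪u, w⟫ = u 0 * w 0 + u 1 * w 1 := by
    intro u
    simp [PiLp.inner_apply, Fin.sum_univ_two, mul_comm]
  have hw2 : 0 < w 0 ^ 2 + w 1 ^ 2 := by
    have := EuclideanSpace.real_norm_sq_eq w
    rw [Fin.sum_univ_two] at this
    have h0 : 0 < ‖w‖ := norm_pos_iff.2 hw
    rw [← this]; positivity
  have n1 := n u1 h1
  have n2 := n u2 h2
  have n3 := n u3 h3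
  rw [ip, ip] at e12 e13
  -- cross products
  have ext2 : ∀ u v : E2, u 0 * w 0 + u 1 * w 1 = v 0 * w 0 + v 1 * w 1 →
      u 0 * w 1 - u 1 * w 0 = v 0 * w 1 - v 1 * w 0 → u = v := by
    intro u v ha hb
    have g0 : (u 0 - v 0) * (w 0 ^ 2 + w 1 ^ 2) = 0 := by linear_combination w 0 * ha + w 1 * hb
    have g1 : (u 1 - v 1) * (w 0 ^ 2 + w 1 ^ 2) = 0 := by linear_combination w 1 * ha - w 0 * hb
    have k0 := (mul_eq_zero.1 g0).resolve_right hw2.ne'
    have k1 := (mul_eq_zero.1 g1).resolve_right hw2.ne'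
    ext i
    fin_cases i
    · simpa using sub_eq_zero.1 k0
    · simpa using sub_eq_zero.1 k1
  have s12 : (u1 0 * w 1 - u1 1 * w 0) ^ 2 = (u2 0 * w 1 - u2 1 * w 0) ^ 2 := by
    linear_combination (w 0 ^ 2 + w 1 ^ 2) * (n1 - n2) -
      (u1 0 * w 0 + u1 1 * w 1 + (u2 0 * w 0 + u2 1 * w 1)) * e12
  have s13 : (u1 0 * w 1 - u1 1 * w 0) ^ 2 = (u3 0 * w 1 - u3 1 * w 0) ^ 2 := by
    linear_combination (w 0 ^ 2 + w 1 ^ 2) * (n1 - n3) -
      (u1 0 * w 0 + u1 1 * w 1 + (u3 0 * w 0 + u3 1 * w 1)) * e13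
  rcases sq_eq_sq_iff_eq_or_eq_neg.1 s12 with a | a
  · exact Or.inl (ext2 _ _ e12 a)
  rcases sq_eq_sq_iff_eq_or_eq_neg.1 s13 with b | b
  · exact Or.inr (Or.inl (ext2 _ _ e13 b))
  · exact Or.inr (Or.inr (ext2 _ _ (by linarith) (by linarith)))

/-- In `2+1` dimensions the colour conditions force `P` to have at most one point. -/
theorem subsingleton_of_fut {P : Set (ℝ × E2)} {c c' : Fin 3 → Set (ℝ × E2)} (h : Fut lt P c)
    (h' : Fut (flip lt) P c') : P.Subsingleton := by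
  intro x hx y hy
  have hm := mid_mem h h' hx hy
  set m := (1 / 2 : ℝ) • (x + y) with hmdef
  have key : ∀ i, ∃ u : E2, ‖u‖ = 1 ∧ ray m u 1 ∈ c i ∧ x.1 - y.1 = ⟪u, x.2 - y.2⟫ := by
    intro i
    obtain ⟨a, ha, hma⟩ := h.hc m hm i
    obtain ⟨u, hu, -, hr⟩ := h.ray_mem hm ha hma
    refine ⟨u, hu, hr 1 one_pos, ?_⟩
    have h1 := h.support hx hu hr
    have h2 := h.support hy hu hr
    simp only [hmdef, Prod.smul_fst, Prod.fst_add, Prod.smul_snd, Prod.snd_add, inner_smul_right,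
      inner_add_right, smul_eq_mul] at h1 h2
    rw [inner_sub_right]
    linarith
  obtain ⟨u0, n0, r0, e0⟩ := key 0
  obtain ⟨u1, n1, r1, e1⟩ := key 1
  obtain ⟨u2, n2, r2, e2⟩ := key 2
  by_cases hw : x.2 - y.2 = 0
  · rw [hw, inner_zero_right] at e0
    ext1
    · linarith
    · exact sub_eq_zero.1 hw
  · exfalso
    rcases three_units n0 n1 n2 hw (e0.symm.trans e1) (e0.symm.trans e2) with a | a | a
    · exact h.hd2 0 1 (by decide) _ r0 (a ▸ r1)
    · exact h.hd2 0 2 (by decide) _ r0 (a ▸ r2)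
    · exact h.hd2 1 2 (by decide) _ r1 (a ▸ r2)

/-- Five events of `2+1` dimensional Minkowski space are not shattered by past cones. -/
theorem not_shatter (a : Fin 5 → ℝ × E2)
    (h : ∀ S : Fin 5 → Bool, ∃ z, ∀ k, le (a k) z ↔ S k = true) : False := by
  classical
  have hdep : ¬ LinearIndependent ℝ (fun k => ((1 : ℝ), a k)) := by
    intro hl
    have := hl.fintype_card_le_finrank
    simp [Module.finrank_prod] at this
  obtain ⟨g, hg, k0, hk0⟩ := Fintype.not_linearIndependent_iff.1 hdep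
  have g1 : ∑ k, g k = 0 := by
    have := congrArg Prod.fst hg
    simpa [Prod.fst_sum] using this
  have g2 : ∑ k, g k * (a k).1 = 0 := by
    have := congrArg (fun p => p.2.1) hg
    simpa [Prod.fst_sum, Prod.snd_sum] using this
  have g3 : ∑ k, g k • (a k).2 = 0 := by
    have := congrArg (fun p => p.2.2) hg
    simpa [Prod.fst_sum, Prod.snd_sum] using this
  have hpos : ∃ k, 0 < g k := by
    by_contra hc
    push Not at hc
    have := (Finset.sum_eq_zero_iff_of_nonpos (fun k _ => hc k)).1 g1 k0 (Finset.mem_univ _)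
    exact hk0 this
  have hneg : ∃ k, g k < 0 := by
    by_contra hc
    push Not at hc
    have := (Finset.sum_eq_zero_iff_of_nonneg (fun k _ => hc k)).1 g1 k0 (Finset.mem_univ _)
    exact hk0 this
  obtain ⟨kp, hkp⟩ := hpos
  obtain ⟨kn, hkn⟩ := hneg
  obtain ⟨zA, hA⟩ := h (fun k => decide (0 < g k))
  obtain ⟨zB, hB⟩ := h (fun k => decide (g k ≤ 0))
  simp only [decide_eq_true_eq] at hA hB
  set Q : (ℝ × E2) → (ℝ × E2) → ℝ := fun z x => (z.1 - x.1) ^ 2 - ‖z.2 - x.2‖ ^ 2 with hQ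
  have Qpos : ∀ z x, le x z → 0 ≤ Q z x := by
    intro z x hle
    unfold le at hle
    have := norm_nonneg (z.2 - x.2)
    simp only [hQ]
    nlinarith
  have Qneg : ∀ z x, ¬ le x z → ¬ le z x → Q z x < 0 := by
    intro z x h1 h2
    unfold le at h1 h2
    rw [norm_sub_rev] at h2
    simp only [hQ]
    nlinarith
  have DA : ∀ k, 0 < g k → 0 < Q zA (a k) - Q zB (a k) := by
    intro k hk
    have h1 := Qpos _ _ ((hA k).2 hk)
    have h2 := Qneg zB (a k) (fun hh => absurd ((hB k).1 hh) (not_le.2 hk)) (fun hh => by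
      have := (hA kn).1 ((((hB kn).2 hkn.le).trans hh).trans ((hA k).2 hk))
      linarith)
    linarith
  have DB : ∀ k, g k ≤ 0 → Q zA (a k) - Q zB (a k) < 0 := by
    intro k hk
    have h1 := Qpos _ _ ((hB k).2 hk)
    have h2 := Qneg zA (a k) (fun hh => absurd ((hA k).1 hh) (not_lt.2 hk)) (fun hh => by
      have := (hB kp).1 ((((hA kp).2 hkp).trans hh).trans ((hB k).2 hk))
      linarith)
    linarith
  have hsum : ∑ k, g k * (Q zA (a k) - Q zB (a k)) = 0 := by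
    have e : ∀ k, g k * (Q zA (a k) - Q zB (a k)) =
        (zA.1 ^ 2 - zB.1 ^ 2 - ‖zA.2‖ ^ 2 + ‖zB.2‖ ^ 2) * g k
          - 2 * (zA.1 - zB.1) * (g k * (a k).1) + 2 * ⟪zA.2 - zB.2, g k • (a k).2⟫ := by
      intro k
      simp only [hQ, norm_sub_sq_real, inner_smul_right, inner_sub_left]
      ring
    simp only [e, Finset.sum_add_distrib, Finset.sum_sub_distrib, ← Finset.mul_sum, ← inner_sum,
      g1, g2, g3]
    simp
  have hp : 0 < ∑ k, g k * (Q zA (a k) - Q zB (a k)) := by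
    refine Finset.sum_pos' (fun k _ => ?_) ⟨kp, Finset.mem_univ _, mul_pos hkp (DA kp hkp)⟩
    rcases lt_or_ge 0 (g k) with hk | hk
    · exact (mul_pos hk (DA k hk)).le
    · exact mul_nonneg_of_nonpos_of_nonpos hk (DB k hk).le
  linarith

section Single

variable {E : Type*} [NormedAddCommGroup E] [InnerProductSpace ℝ E]

def cone (col : E → Fin 3) (i : Fin 3) : Set (ℝ × E) := {z | 0 < z.1 ∧ ‖z.2‖ = z.1 ∧ col z.2 = i}

theorem fut_zero (col : E → Fin 3) (hcol : ∀ (t : ℝ) u, 0 < t → col (t • u) = col u)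
    (hsurj : ∀ i, ∃ u, ‖u‖ = 1 ∧ col u = i) : Fut lt ({0} : Set (ℝ × E)) (cone col) := by
  have lt0 : ∀ i, ∀ a ∈ cone col i, lt 0 a := by
    rintro i a ⟨h1, h2, -⟩
    exact lt_of_time (by simp [le, h2]) (by simpa using h1)
  have same : ∀ (z : ℝ × E), lt 0 z → ¬ tl 0 z → ∀ i, ∀ a ∈ cone col i, le a z → col z.2 = i := by
    intro z hz hn i a ha haz
    obtain ⟨u, hu, hzu⟩ := exists_ray hz hn
    have hau := eq_ray_of_between hu (lt0 i a ha).2 (hzu ▸ haz)
    have h1 := congrArg Prod.snd hzu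
    have h2 := congrArg Prod.snd hau
    simp only [ray, Prod.snd_zero, Prod.fst_zero, zero_add, sub_zero] at h1 h2
    have h3 := ha.2.2
    rw [h2, hcol _ _ ha.1] at h3
    rw [h1, hcol _ _ (by simpa using hz.time), h3]
  have ntl : ∀ i, ∀ a ∈ cone col i, ¬ tl 0 a := by
    rintro i a ⟨-, h2, -⟩ h
    simp [tl, h2] at h
  have tlII : ∀ z : ℝ × E, tl 0 z → II lt (cone col) z := by
    intro z hz
    have hz' : ‖z.2‖ < z.1 := by simpa [tl] using hz
    have sm : ∀ i, ∃ a ∈ cone col i, lt a z := by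
      intro i
      obtain ⟨u, hu, hi⟩ := hsurj i
      set ε := (z.1 - ‖z.2‖) / 4 with hε
      have hε0 : 0 < ε := by rw [hε]; linarith
      refine ⟨(ε, ε • u), ⟨hε0, ?_, ?_⟩, tl.lt ?_⟩
      · simp [norm_smul, hu, abs_of_pos hε0]
      · simp only; rw [hcol _ _ hε0, hi]
      · unfold tl
        simp only
        have := norm_sub_le z.2 (ε • u)
        rw [norm_smul, hu, Real.norm_eq_abs, abs_of_pos hε0] at this
        linarith
    exact ⟨0, 1, by decide, sm 0, sm 1⟩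
  refine ⟨?_, ?_, ?_, ?_, ?_, ?_, ?_, ?_, ?_⟩
  · rintro y rfl x rfl h
    exact h.1 rfl
  · rintro y rfl i
    obtain ⟨u, hu, hi⟩ := hsurj i
    have : ((1 : ℝ), u) ∈ cone col i := ⟨one_pos, hu, hi⟩
    exact ⟨_, this, lt0 i _ this⟩
  · intro i a ha
    exact ⟨0, rfl, lt0 i a ha⟩
  · intro i j hij a ha hb
    exact hij (ha.2.2.symm.trans hb.2.2)
  · intro i j hij a ha b hb hba
    exact hij (ha.2.2.symm.trans (same a (lt0 i a ha) (ntl i a ha) j b hb hba.2))
  · rintro z ⟨y, rfl, hz⟩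
    by_cases ht : tl 0 z
    · exact Or.inr (tlII z ht)
    · left
      refine ⟨col z.2, by simpa using hz.time, ?_, rfl⟩
      have h1 := hz.2
      simp only [le, tl, Prod.snd_zero, sub_zero, Prod.fst_zero, not_lt] at h1 ht
      linarith
  · rintro i a ⟨h1, h2, h3⟩
    refine ⟨i, (2 : ℝ) • a, ⟨by simpa using h1, ?_, ?_⟩, lt_of_time ?_ ?_⟩
    · simp [norm_smul, h2]
    · simp only [Prod.smul_snd]; rw [hcol _ _ two_pos, h3]
    · unfold le
      simp only [Prod.smul_snd, Prod.smul_fst, smul_eq_mul]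
      have : (2 : ℝ) • a.2 - a.2 = a.2 := by rw [two_smul]; abel
      rw [this]; linarith
    · simp only [Prod.smul_fst, smul_eq_mul]; linarith
  · rintro z ⟨i, j, hij, ⟨a, ha, haz⟩, ⟨b, hb, hbz⟩⟩
    have hz : lt 0 z := (lt0 i a ha).trans haz
    have ht : tl 0 z := by
      by_contra hn
      exact hij ((same z hz hn i a ha haz.2).symm.trans (same z hz hn j b hb hbz.2))
    have hz' : ‖z.2‖ < z.1 := by simpa [tl] using ht
    refine ⟨(1 / 2 : ℝ) • z, tlII _ ?_, tl.lt ?_⟩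
    · simp only [tl, Prod.smul_snd, Prod.snd_zero, sub_zero, norm_smul, Prod.smul_fst,
        smul_eq_mul, Prod.fst_zero, Real.norm_eq_abs]
      rw [abs_of_pos (by norm_num)]; linarith
    · unfold tl
      simp only [Prod.smul_snd, Prod.smul_fst, smul_eq_mul]
      have : z.2 - (1 / 2 : ℝ) • z.2 = (1 / 2 : ℝ) • z.2 := by
        rw [sub_eq_iff_eq_add, ← add_smul]; norm_num
      rw [this, norm_smul, Real.norm_eq_abs, abs_of_pos (by norm_num)]; linarith
  · intro z hz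
    have hnle : ¬ le 0 z := by
      intro hle
      rcases le_iff_eq_or_lt.1 hle with h | h
      · exact hz (Or.inl h.symm)
      · exact hz (Or.inr ⟨0, rfl, h⟩)
    have hz' : z.1 < ‖z.2‖ := by simpa [le] using hnle
    by_cases h0 : z.2 = 0
    · obtain ⟨u, hu, hi⟩ := hsurj 0
      rw [h0, norm_zero] at hz'
      refine ⟨0, (1, u), ⟨one_pos, hu, hi⟩, lt_of_time ?_ (by simp only; linarith)⟩
      unfold le
      simp only [h0, sub_zero, hu]; linarith
    · refine ⟨col z.2, (‖z.2‖, z.2), ⟨norm_pos_iff.2 h0, rfl, rfl⟩, lt_of_time ?_ hz'⟩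
      unfold le
      simp only [sub_self, norm_zero]; linarith

theorem lt_sub (a x y : ℝ × E) : lt (x - a) (y - a) ↔ lt x y := by
  unfold lt le
  simp

theorem fut_single (col : E → Fin 3) (hcol : ∀ (t : ℝ) u, 0 < t → col (t • u) = col u)
    (hsurj : ∀ i, ∃ u, ‖u‖ = 1 ∧ col u = i) (a : ℝ × E) :
    (∃ c, Fut lt ({a} : Set (ℝ × E)) c) ∧ (∃ c, Fut (flip lt) ({a} : Set (ℝ × E)) c) := by
  have h0 := fut_zero col hcol hsurj
  constructor
  · have := Fut.comap (r := lt) (Equiv.subRight a) (fun x y => lt_sub a x y) h0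
    have e : (Equiv.subRight a) ⁻¹' ({0} : Set (ℝ × E)) = {a} := by
      ext z; simp [sub_eq_zero]
    rw [e] at this
    exact ⟨_, this⟩
  · have := Fut.comap (r := flip lt) (Equiv.subLeft a) (fun x y => by
      simp only [Equiv.subLeft_apply, flip]
      rw [← lt_neg, neg_sub, neg_sub, lt_sub]) h0
    have e : (Equiv.subLeft a) ⁻¹' ({0} : Set (ℝ × E)) = {a} := by
      ext z; simp [sub_eq_zero, eq_comm]
    rw [e] at this
    exact ⟨_, this⟩

end Single

end Pool.Agent.H356Z.Mink
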